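import Pool.Agent.Helper28.TK.StK

/-!
Project TK, module KRFE: the functional equation between `f` and its Fricke transform, weight `2A + 2`.
-/

set_option autoImplicit false

namespace Pool.Agent.Helper40.TK

open Pool.Agent.Helper28.TK Pool.Agent.Helper14.WK
open Pool.Agent.Helper14.CV (G0)
open Complex Filter Topology MeasureTheory Set

/-- the function on the positive half line -/
private noncomputable def ph {N : ℕ} {k : ℤ} (f : CuspForm (G0 N) k) (t : ℝ) : ℂ := fzK f (I * t)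

private lemma lam_eq {N : ℕ} [NeZero N] {k : ℤ} (hk : 0 < k) (f : CuspForm (G0 N) k) (s : ℂ)
    (hs : 0 < (s + ((k : ℂ) - 1) / 2).re) :
    LamK hk f s = (Real.sqrt N : ℂ) ^ s * ((2 * Real.pi : ℝ) : ℂ) ^ (((k : ℂ) - 1) / 2) *
      mellin (ph f) (s + ((k : ℂ) - 1) / 2) := by
  have hN : 0 < (N : ℝ) := by
    have := NeZero.pos N
    exact_mod_cast this
  have hG : Complex.Gamma (s + ((k : ℂ) - 1) / 2) ≠ 0 := Complex.Gamma_ne_zero_of_re_pos hs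
  have h2 : ((2 * Real.pi : ℝ) : ℂ) ≠ 0 := by
    exact_mod_cast (by positivity : (2 * Real.pi : ℝ) ≠ 0)
  have h1 : ((Real.sqrt N / (2 * Real.pi) : ℝ) : ℂ) ^ s
      = (Real.sqrt N : ℂ) ^ s / ((2 * Real.pi : ℝ) : ℂ) ^ s := by
    rw [Complex.ofReal_div, Complex.div_cpow_ofReal_nonneg (Real.sqrt_nonneg _) (by positivity)]
  have hL : LanK hk f s = mellin (ph f) (s + ((k : ℂ) - 1) / 2) * (2 / Complex.Gammaℂ (s + ((k : ℂ) - 1) / 2)) := by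
    unfold LanK ModularForm.L
    rw [CuspForm.Λ_eq_mellin]
    rfl
  unfold LamK
  rw [hL, h1, Complex.Gammaℂ_def]
  have h3 : (2 * (Real.pi : ℂ)) = ((2 * Real.pi : ℝ) : ℂ) := by push_cast; ring
  rw [h3]
  have h4 : ((2 * Real.pi : ℝ) : ℂ) ^ (-(s + ((k : ℂ) - 1) / 2)) =
      (((2 * Real.pi : ℝ) : ℂ) ^ s * ((2 * Real.pi : ℝ) : ℂ) ^ (((k : ℂ) - 1) / 2))⁻¹ := by
    rw [Complex.cpow_neg, Complex.cpow_add _ _ h2]
  rw [h4]
  have h5 : ((2 * Real.pi : ℝ) : ℂ) ^ s ≠ 0 := by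
    rw [Complex.cpow_ne_zero_iff]
    exact Or.inl h2
  have h6 : ((2 * Real.pi : ℝ) : ℂ) ^ (((k : ℂ) - 1) / 2) ≠ 0 := by
    rw [Complex.cpow_ne_zero_iff]
    exact Or.inl h2
  generalize s + ((k : ℂ) - 1) / 2 = u at hG ⊢
  field_simp

/-- the transformed function -/
private noncomputable def ps {N : ℕ} {k : ℤ} (A : ℕ) (f : CuspForm (G0 N) k) (t : ℝ) : ℂ :=
  (((N : ℂ) ^ (A + 1))⁻¹) • ((t : ℂ) ^ (-(2 * A + 2) : ℂ) • ph f ((N : ℝ) * t)⁻¹)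

private lemma mellin_ps {N : ℕ} [NeZero N] {k : ℤ} (A : ℕ) (f : CuspForm (G0 N) k) (s : ℂ) :
    mellin (ps A f) s = (N : ℂ) ^ (A + 1 - s) * mellin (ph f) (2 * A + 2 - s) := by
  have hN : 0 < (N : ℝ) := by
    have := NeZero.pos N
    exact_mod_cast this
  have hN0 : (N : ℂ) ≠ 0 := by exact_mod_cast hN.ne'
  have e1 : mellin (ps A f) s = (((N : ℂ) ^ (A + 1))⁻¹) •
      mellin (fun t : ℝ => (t : ℂ) ^ (-(2 * A + 2) : ℂ) • ph f ((N : ℝ) * t)⁻¹) s :=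
    mellin_const_smul _ _ _
  have e2 : mellin (fun t : ℝ => (t : ℂ) ^ (-(2 * A + 2) : ℂ) • ph f ((N : ℝ) * t)⁻¹) s
      = mellin (fun t : ℝ => ph f ((N : ℝ) * t)⁻¹) (s + -(2 * A + 2)) :=
    mellin_cpow_smul (fun t : ℝ => ph f ((N : ℝ) * t)⁻¹) s (-(2 * A + 2))
  have e3 : mellin (fun t : ℝ => ph f ((N : ℝ) * t)⁻¹) (s + -(2 * A + 2))
      = ((N : ℝ) : ℂ) ^ (-(s + -(2 * A + 2))) • mellin (fun t : ℝ => ph f t⁻¹) (s + -(2 * A + 2)) :=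
    mellin_comp_mul_left (fun t : ℝ => ph f t⁻¹) (s + -(2 * A + 2)) hN
  have e4 : mellin (fun t : ℝ => ph f t⁻¹) (s + -(2 * A + 2)) = mellin (ph f) (-(s + -(2 * A + 2))) :=
    mellin_comp_inv _ _
  rw [e1, e2, e3, e4, smul_eq_mul, smul_eq_mul, ← mul_assoc]
  have e5 : -(s + -(2 * A + 2)) = 2 * A + 2 - s := by ring
  rw [e5]
  congr 1
  have e6 : (2 * A + 2 - s : ℂ) = (A + 1 - s) + ((A + 1 : ℕ) : ℂ) := by push_cast; ring
  rw [e6, Complex.ofReal_natCast, Complex.cpow_add _ _ hN0, Complex.cpow_natCast]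
  field_simp

private lemma ph_eq_ps {N : ℕ} [NeZero N] (A : ℕ) (f g : CuspForm (G0 N) (2 * A + 2)) (h : FrK A f g)
    (t : ℝ) (ht : 0 < t) : ph g t = ps A f t := by
  have hN : 0 < (N : ℝ) := by
    have := NeZero.pos N
    exact_mod_cast this
  have hN0 : (N : ℂ) ≠ 0 := by exact_mod_cast hN.ne'
  have htc : (t : ℂ) ≠ 0 := by exact_mod_cast ht.ne'
  have hz : (0 : ℝ) < (I * (t : ℂ)).im := by simpa using ht
  have h1 := h (I * (t : ℂ)) hz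
  unfold ph ps ph
  rw [h1]
  have h2 : (t : ℂ) ^ (-(2 * A + 2) : ℂ) = ((t : ℂ) ^ (2 * A + 2))⁻¹ := by
    rw [Complex.cpow_neg]
    congr 1
    exact_mod_cast Complex.cpow_natCast (t : ℂ) (2 * A + 2)
  have h3 : (-1 / (N * (I * t)) : ℂ) = I * (((N : ℝ) * t)⁻¹ : ℝ) := by
    push_cast
    field_simp
    rw [Complex.I_sq]
  rw [h2, smul_eq_mul, smul_eq_mul, h3]
  have h4 : (I * (t : ℂ)) ^ (2 * A + 2) = (-1) ^ (A + 1) * (t : ℂ) ^ (2 * A + 2) := by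
    rw [mul_pow]
    congr 1
    have : (2 * A + 2) = 2 * (A + 1) := by ring
    rw [this, pow_mul, Complex.I_sq]
  have h5 : ((-1 : ℂ) ^ (A + 1)) * ((-1 : ℂ) ^ (A + 1)) = 1 := by
    rw [← mul_pow]; norm_num
  have h6 : ((-1 : ℂ) ^ (A + 1))⁻¹ = (-1 : ℂ) ^ (A + 1) := inv_eq_of_mul_eq_one_left h5
  rw [h4, mul_inv, mul_inv, h6]
  calc (-1 : ℂ) ^ (A + 1) * (((N : ℂ) ^ (A + 1))⁻¹ * ((-1) ^ (A + 1) * ((t : ℂ) ^ (2 * A + 2))⁻¹) *
        fzK f (I * (((N : ℝ) * t)⁻¹ : ℝ)))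
      = ((-1 : ℂ) ^ (A + 1) * (-1 : ℂ) ^ (A + 1)) * (((N : ℂ) ^ (A + 1))⁻¹ *
          (((t : ℂ) ^ (2 * A + 2))⁻¹ * fzK f (I * (((N : ℝ) * t)⁻¹ : ℝ)))) := by ring
    _ = ((N : ℂ) ^ (A + 1))⁻¹ * (((t : ℂ) ^ (2 * A + 2))⁻¹ * fzK f (I * (((N : ℝ) * t)⁻¹ : ℝ))) := by
        rw [h5, one_mul]

/-- Module KRFE. -/
theorem hKRFE : KRFE := by
  intro N hNZ A hk f g hFr s hs1 hs2
  have := hNZ
  have hN : 0 < (N : ℝ) := by
    have := NeZero.pos N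
    exact_mod_cast this
  have hsq : (Real.sqrt N : ℂ) ≠ 0 := by
    exact_mod_cast (Real.sqrt_pos.2 hN).ne'
  have hkc : (((2 * A + 2 : ℤ) : ℂ) - 1) / 2 = (A : ℂ) + 1 / 2 := by push_cast; ring
  have hkr : (((2 * A + 2 : ℤ) : ℝ)) = 2 * (A : ℝ) + 2 := by push_cast; ring
  rw [hkr] at hs1 hs2
  have r1 : 0 < (s + (((2 * A + 2 : ℤ) : ℂ) - 1) / 2).re := by
    rw [hkc]
    have : (s + ((A : ℂ) + 1 / 2)).re = s.re + (A + 1 / 2) := by simp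
    rw [this]; linarith
  have r2 : 0 < (1 - s + (((2 * A + 2 : ℤ) : ℂ) - 1) / 2).re := by
    rw [hkc]
    have : (1 - s + ((A : ℂ) + 1 / 2)).re = 1 - s.re + (A + 1 / 2) := by simp
    rw [this]; linarith
  rw [lam_eq hk f s r1, lam_eq hk g (1 - s) r2, hkc]
  have hm : mellin (ph g) (1 - s + ((A : ℂ) + 1 / 2)) = mellin (ps A f) (1 - s + ((A : ℂ) + 1 / 2)) := by
    unfold mellin
    apply setIntegral_congr_fun measurableSet_Ioi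
    intro t ht
    show (t : ℂ) ^ (1 - s + ((A : ℂ) + 1 / 2) - 1) • ph g t = (t : ℂ) ^ (1 - s + ((A : ℂ) + 1 / 2) - 1) • ps A f t
    rw [ph_eq_ps A f g hFr t ht]
  rw [hm, mellin_ps]
  have c1 : (2 * A + 2 - (1 - s + ((A : ℂ) + 1 / 2)) : ℂ) = s + ((A : ℂ) + 1 / 2) := by ring
  have c2 : (A + 1 - (1 - s + ((A : ℂ) + 1 / 2)) : ℂ) = s - 1 / 2 := by ring
  rw [c1, c2]
  have h6 : (N : ℂ) ^ (s - 1 / 2) = (Real.sqrt N : ℂ) ^ (s - 1 / 2) * (Real.sqrt N : ℂ) ^ (s - 1 / 2) := by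
    rw [← Complex.mul_cpow_ofReal_nonneg (Real.sqrt_nonneg _) (Real.sqrt_nonneg _), ← Complex.ofReal_mul,
      Real.mul_self_sqrt hN.le, Complex.ofReal_natCast]
  have h7 : (Real.sqrt N : ℂ) ^ s = (Real.sqrt N : ℂ) ^ (1 - s) *
      ((Real.sqrt N : ℂ) ^ (s - 1 / 2) * (Real.sqrt N : ℂ) ^ (s - 1 / 2)) := by
    rw [← Complex.cpow_add _ _ hsq, ← Complex.cpow_add _ _ hsq]
    congr 1
    ring
  rw [h6, h7]
  ring

end Pool.Agent.Helper40.TK
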